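import Pool.Agent.H743.X17.Stm
import Pool.Graph.R_seed8.Y809.BSD14.Tam3

/-!
# X17 TAMP: Tamagawa number 4 at the odd primes `p ∥ N` (17 included)

`X = 4 x`, `Y = 4 (2 y + a₁ x)`, so `Y² = X (X + N) (X - 16 N)`.  The points outside `E⁰` are those with `|X| < 1`, then
`X = N t` with `|t| ≤ 1`, and translation by `T = (N r, 0)`, `r = 0, -1, 16`, leads to `E⁰` iff `|t - r| ≤ |c N|`,
`c = -16, 17, 272`.
-/

set_option autoImplicit false


open scoped Classical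

open WeierstrassCurve

namespace Pool.Agent.H216.X17

open Pool.Agent.H743.X17 (IsN S_TAMP)
open Pool.Agent.Y700 (SingRed E0 tam PtP)
open Pool.Agent.Y809.BSD14 (index_of t_E0 nadd nsub nmul npow nneg ladd lneg lsub lmul lmul' norm_nat_eq_one norm_two_pow
  norm_le_inv norm_M M_lt M_pos M_ne norm2 norm4 norm16 nnat)

section crd

variable {K : Type} [Field K] [DecidableEq K]

/-- the form of the equation -/
structure IsK (V : WeierstrassCurve.Affine K) (n : K) : Prop where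
  a3 : V.a₃ = 0
  a6 : V.a₆ = 0
  b2 : V.a₁ ^ 2 + 4 * V.a₂ = -15 * n
  a4 : V.a₄ = -n ^ 2

variable {V : WeierstrassCurve.Affine K} {n : K}

theorem IsK.eqn (h : IsK V n) {x y : K} (hE : V.Equation x y) :
    (4 * (2 * y + V.a₁ * x)) ^ 2 = 4 * x * (4 * x + n) * (4 * x - 16 * n) := by
  rw [Affine.equation_iff, h.a3, h.a6] at hE
  linear_combination 64 * hE + 16 * x ^ 2 * h.b2 + 64 * x * h.a4

theorem IsK.eqn' (h : IsK V n) (h2 : (2 : K) ≠ 0) {x y : K}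
    (hE : (4 * (2 * y + V.a₁ * x)) ^ 2 = 4 * x * (4 * x + n) * (4 * x - 16 * n)) : V.Equation x y := by
  rw [Affine.equation_iff, h.a3, h.a6]
  have h64 : (64 : K) ≠ 0 := by
    have : (64 : K) = 2 ^ 6 := by norm_num
    rw [this]
    exact pow_ne_zero _ h2
  apply mul_left_cancel₀ h64
  linear_combination hE - 16 * x ^ 2 * h.b2 - 64 * x * h.a4

theorem IsK.fx (h : IsK V n) (x y : K) : 16 * (V.a₁ * y - (3 * x ^ 2 + 2 * V.a₂ * x + V.a₄)) =
    2 * V.a₁ * (4 * (2 * y + V.a₁ * x)) - (3 * (4 * x) ^ 2 - 30 * n * (4 * x) - 16 * n ^ 2) := by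
  linear_combination (-8 * x) * h.b2 - 16 * h.a4

/-- the point `P` has the coordinates `X = 4 x`, `Y = 4 (2 y + a₁ x)` -/
def At (P : V.Point) (X Y : K) : Prop :=
  ∃ (x y : K) (h : V.Nonsingular x y), P = Affine.Point.some x y h ∧ X = 4 * x ∧ Y = 4 * (2 * y + V.a₁ * x)

theorem At.eqn (hV : IsK V n) {P : V.Point} {X Y : K} (h : At P X Y) :
    Y ^ 2 = X * (X + n) * (X - 16 * n) := by
  obtain ⟨x, y, hn, rfl, rfl, rfl⟩ := h
  exact hV.eqn hn.1

theorem exists_at {P : V.Point} (h : P ≠ 0) : ∃ X Y, At P X Y := by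
  rcases P with _ | ⟨x, y, hn⟩
  · exact absurd rfl h
  · exact ⟨_, _, x, y, hn, rfl, rfl, rfl⟩

theorem At.ext (h2 : (2 : K) ≠ 0) {P P' : V.Point} {X Y : K} (h : At P X Y) (h' : At P' X Y) :
    P = P' := by
  obtain ⟨x, y, hn, rfl, e1, e2⟩ := h
  obtain ⟨x', y', hn', rfl, e1', e2'⟩ := h'
  have hx : x = x' := by
    have h3 : (2 ^ 2 : K) * x = 2 ^ 2 * x' := by linear_combination e1' - e1
    exact mul_left_cancel₀ (pow_ne_zero 2 h2) h3
  have hy : y = y' := by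
    have h3 : (2 ^ 3 : K) * y = 2 ^ 3 * y' := by rw [hx] at e2; linear_combination e2' - e2
    exact mul_left_cancel₀ (pow_ne_zero 3 h2) h3
  subst hx hy
  rfl

theorem At.neg (hV : IsK V n) {P : V.Point} {X Y : K} (h : At P X Y) : At (-P) X (-Y) := by
  obtain ⟨x, y, hn, rfl, rfl, rfl⟩ := h
  rw [Affine.Point.neg_some]
  refine ⟨_, _, _, rfl, rfl, ?_⟩
  rw [WeierstrassCurve.Affine.negY, hV.a3]
  ring

/-- the points of order two -/
theorem exists_two (hV : IsK V n) (h2 : (2 : K) ≠ 0) {e : K} (he : e * (e + n) * (e - 16 * n) = 0)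
    (hd : 3 * e ^ 2 - 30 * n * e - 16 * n ^ 2 ≠ 0) : ∃ P : V.Point, At P e 0 := by
  have h4 : (4 : K) ≠ 0 := by
    have : (4 : K) = 2 ^ 2 := by norm_num
    rw [this]
    exact pow_ne_zero _ h2
  obtain ⟨x, hx⟩ : ∃ x : K, e = 4 * x := ⟨e / 4, by field_simp⟩
  obtain ⟨y, hy⟩ : ∃ y : K, 2 * y + V.a₁ * x = 0 := ⟨-(V.a₁ * x) / 2, by field_simp; ring⟩
  have hq : V.Equation x y := by
    apply hV.eqn' h2
    rw [← hx, hy]
    linear_combination -he
  have hn : V.Nonsingular x y := by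
    rw [Affine.nonsingular_iff]
    refine ⟨hq, Or.inl ?_⟩
    intro hcon
    have hf := hV.fx x y
    rw [hcon, sub_self, mul_zero, ← hx, hy] at hf
    apply hd
    linear_combination hf
  exact ⟨Affine.Point.some x y hn, x, y, hn, rfl, hx, by rw [hy, mul_zero]⟩

theorem At.add (hV : IsK V n) (h2 : (2 : K) ≠ 0) {P P' : V.Point} {X Y X' Y' : K}
    (h : At P X Y) (h' : At P' X' Y') (hne : X ≠ X') :
    ∃ Y3, At (P + P') (((Y - Y') / (X - X')) ^ 2 + 15 * n - X - X') Y3 := by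
  obtain ⟨x, y, hn, rfl, rfl, rfl⟩ := h
  obtain ⟨x', y', hn', rfl, rfl, rfl⟩ := h'
  have hx : x ≠ x' := fun h => hne (by rw [h])
  rw [Affine.Point.add_of_X_ne hx]
  refine ⟨_, _, _, _, rfl, ?_, rfl⟩
  rw [WeierstrassCurve.Affine.addX, WeierstrassCurve.Affine.slope_of_X_ne hx]
  have h1 : x - x' ≠ 0 := sub_ne_zero.2 hx
  have h4 : (4 : K) ≠ 0 := by
    have : (4 : K) = 2 ^ 2 := by norm_num
    rw [this]
    exact pow_ne_zero _ h2
  have h5 : (4 * (2 * y + V.a₁ * x) - 4 * (2 * y' + V.a₁ * x')) /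
      (4 * x - 4 * x') = 2 * ((y - y') / (x - x')) + V.a₁ := by
    have h6 : 4 * x - 4 * x' = 4 * (x - x') := by ring
    rw [h6]
    field_simp
    ring
  rw [h5]
  linear_combination hV.b2

/-- translation by a point of order two with the coordinates `(e, 0)` -/
theorem At.addT (hV : IsK V n) (h2 : (2 : K) ≠ 0) {P T : V.Point} {X Y e : K} (h : At P X Y)
    (hT : At T e 0) (hX : X ≠ e) : ∃ X3 Y3, At (P + T) X3 Y3 ∧
      (X3 - e) * (X - e) = 3 * e ^ 2 - 30 * n * e - 16 * n ^ 2 := by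
  obtain ⟨Y3, h3⟩ := h.add hV h2 hT hX
  refine ⟨_, Y3, h3, ?_⟩
  have e0 := h.eqn hV
  have eT := hT.eqn hV
  have hXe : X - e ≠ 0 := sub_ne_zero.2 hX
  rw [sub_zero]
  obtain ⟨L, hL⟩ : ∃ L : K, L = Y / (X - e) := ⟨_, rfl⟩
  have hL1 : L * (X - e) = Y := by rw [hL, div_mul_cancel₀ _ hXe]
  rw [← hL]
  have e3 : L ^ 2 * (X - e) = X ^ 2 + (-15 * n + e) * X + (e ^ 2 - 15 * n * e - 16 * n ^ 2) := by
    apply mul_right_cancel₀ hXe
    rw [← hL1] at e0
    linear_combination e0 - eT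
  linear_combination e3

theorem two_tors (hV : IsK V n) (h2 : (2 : K) ≠ 0) {T : V.Point} {e : K} (hT : At T e 0) :
    T + T = 0 := by
  have h1 : At (-T) e 0 := by simpa using hT.neg hV
  have h3 : T = -T := hT.ext h2 h1
  calc T + T = T + -T := by rw [← h3]
    _ = 0 := add_neg_cancel T

end crd

section

variable {q : ℕ} [Fact q.Prime] {W : WeierstrassCurve ℤ} {N : ℤ}

theorem isK (h : IsN W N) : IsK ((W.map (Int.castRingHom ℚ_[q])).toAffine) (N : ℚ_[q]) := by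
  have h4 : W.a₄ = -N ^ 2 := by
    have h5 := h.b4
    rw [WeierstrassCurve.b₄, h.a3] at h5
    linarith
  have h2 := h.b2
  rw [WeierstrassCurve.b₂] at h2
  refine ⟨?_, ?_, ?_, ?_⟩
  · show ((W.a₃ : ℤ) : ℚ_[q]) = 0
    rw [h.a3, Int.cast_zero]
  · show ((W.a₆ : ℤ) : ℚ_[q]) = 0
    rw [h.a6, Int.cast_zero]
  · show ((W.a₁ : ℤ) : ℚ_[q]) ^ 2 + 4 * ((W.a₂ : ℤ) : ℚ_[q]) = -15 * (N : ℚ_[q])
    exact_mod_cast h2
  · show ((W.a₄ : ℤ) : ℚ_[q]) = -(N : ℚ_[q]) ^ 2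
    exact_mod_cast h4

theorem nint (k : ℤ) : ‖(k : ℚ_[q])‖ ≤ 1 := Padic.norm_int_le_one k

/-- singular reduction in the coordinates `X`, `Y` -/
theorem sing_XY (h : IsN W N) (hq2 : q ≠ 2) (x y : ℚ_[q]) :
    SingRed W q x y ↔ ‖4 * x‖ ≤ 1 ∧ ‖4 * (2 * y + (W.a₁ : ℚ_[q]) * x)‖ < 1 ∧
      ‖3 * (4 * x) ^ 2 - 30 * (N : ℚ_[q]) * (4 * x) - 16 * (N : ℚ_[q]) ^ 2‖ < 1 := by
  have hV := isK (q := q) h
  have e2 := hV.fx x y
  have n4 := norm4 hq2
  have n2' := norm2 hq2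
  have n16 := norm16 hq2
  have c3 : ((W.a₃ : ℤ) : ℚ_[q]) = 0 := by rw [h.a3, Int.cast_zero]
  have e3 : 16 * ((W.a₁ : ℚ_[q]) * y - (3 * x ^ 2 + 2 * (W.a₂ : ℚ_[q]) * x + (W.a₄ : ℚ_[q]))) =
      2 * (W.a₁ : ℚ_[q]) * (4 * (2 * y + (W.a₁ : ℚ_[q]) * x)) -
      (3 * (4 * x) ^ 2 - 30 * (N : ℚ_[q]) * (4 * x) - 16 * (N : ℚ_[q]) ^ 2) := e2
  have hA := nint (q := q) W.a₁
  constructor
  · rintro ⟨hx, hy, hfx, hfy⟩
    rw [c3, add_zero] at hfy
    have hY : ‖4 * (2 * y + (W.a₁ : ℚ_[q]) * x)‖ < 1 := by rw [norm_mul, n4, one_mul]; exact hfy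
    refine ⟨nmul n4.le hx, hY, ?_⟩
    have h1 := lmul (a := (16 : ℚ_[q])) n16.le hfx
    rw [e3] at h1
    have h2 := lsub (lmul (a := 2 * (W.a₁ : ℚ_[q])) (nmul n2'.le hA) hY) h1
    rw [sub_sub_cancel] at h2
    exact h2
  · rintro ⟨hX, hY, hF⟩
    rw [norm_mul, n4, one_mul] at hX
    have hY' := hY
    rw [norm_mul, n4, one_mul] at hY'
    have hy : ‖y‖ ≤ 1 := by
      have h1 : ‖2 * y‖ = ‖y‖ := by rw [norm_mul, n2', one_mul]
      rw [← h1]
      have : 2 * y = (2 * y + (W.a₁ : ℚ_[q]) * x) - (W.a₁ : ℚ_[q]) * x := by ring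
      rw [this]
      exact nsub hY'.le (nmul hA hX)
    refine ⟨hX, hy, ?_, ?_⟩
    · have h1 : ‖16 * ((W.a₁ : ℚ_[q]) * y - (3 * x ^ 2 + 2 * (W.a₂ : ℚ_[q]) * x + (W.a₄ : ℚ_[q])))‖ < 1 := by
        rw [e3]
        exact lsub (lmul (nmul n2'.le hA) hY) hF
      rw [norm_mul, n16, one_mul] at h1
      exact h1
    · rw [c3, add_zero]
      exact hY'

/-- membership in `E⁰` -/
theorem mem_E0 (h : IsN W N) (hq2 : q ≠ 2) {P : PtP W q} {X Y : ℚ_[q]}
    (hP : At P X Y) : P ∉ E0 W q ↔ ‖X‖ ≤ 1 ∧ ‖Y‖ < 1 ∧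
      ‖3 * X ^ 2 - 30 * (N : ℚ_[q]) * X - 16 * (N : ℚ_[q]) ^ 2‖ < 1 := by
  obtain ⟨x, y, hn, rfl, rfl, rfl⟩ := hP
  have h0 := sing_XY (q := q) h hq2 x y
  have h1 : (Affine.Point.some x y hn : PtP W q) ∉ E0 W q ↔ SingRed W q x y := by
    rw [t_E0]
    constructor
    · intro h1
      push Not at h1
      obtain ⟨x', y', h', e, hs⟩ := h1
      injection e with e1 e2
      rw [e1, e2]
      exact hs
    · intro hs h1
      exact h1 x y hn rfl hs
  rw [h1, h0]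
  rfl

theorem parity' (Y : ℚ_[q]) (k : ℕ) : ‖Y‖ ^ 2 ≠ ((q : ℝ)⁻¹) ^ (2 * k + 1) := by
  have hq : (1 : ℝ) < q := by exact_mod_cast (Fact.out : q.Prime).one_lt
  intro h
  rcases eq_or_ne Y 0 with rfl | hY
  · rw [norm_zero] at h
    have : (0 : ℝ) < ((q : ℝ)⁻¹) ^ (2 * k + 1) := by positivity
    rw [← h] at this
    norm_num at this
  · rw [Padic.norm_eq_zpow_neg_valuation hY, ← zpow_natCast, ← zpow_mul, inv_pow,
      ← zpow_natCast, ← zpow_neg] at h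
    have := zpow_right_injective₀ (by linarith) hq.ne' h
    push_cast at this
    omega

variable (h : IsN W N) (hq2 : q ≠ 2) (hM : ‖(N : ℚ_[q])‖ = (q : ℝ)⁻¹)

include h hq2 hM

/-- the points outside `E⁰` are those with `|X| < 1` -/
theorem memX {P : PtP W q} {X Y : ℚ_[q]} (hP : At P X Y) : P ∉ E0 W q ↔ ‖X‖ < 1 := by
  have he := hP.eqn (isK (q := q) h)
  have hm := M_lt hM
  have i15 : ‖(15 : ℚ_[q])‖ ≤ 1 := by exact_mod_cast nint (q := q) 15
  have i16 : ‖(16 : ℚ_[q])‖ ≤ 1 := by exact_mod_cast nint (q := q) 16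
  have i30 : ‖(30 : ℚ_[q])‖ ≤ 1 := by exact_mod_cast nint (q := q) 30
  have i3 : ‖(3 : ℚ_[q])‖ ≤ 1 := by exact_mod_cast nint (q := q) 3
  rw [mem_E0 h hq2 hP]
  constructor
  · rintro ⟨hX, hY, -⟩
    have h3 : ‖X ^ 3‖ < 1 := by
      have e : X ^ 3 = Y * Y + (15 * X ^ 2 + 16 * N * X) * N := by
        linear_combination -he
      rw [e]
      exact ladd (lmul hY.le hY) (lmul (nadd (nmul i15 (npow hX 2)) (nmul (nmul i16 hm.le) hX)) hm)
    rw [norm_pow] at h3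
    by_contra h
    rw [not_lt] at h
    have := one_le_pow₀ h (n := 3)
    linarith
  · intro hX
    refine ⟨hX.le, ?_, ?_⟩
    · have h1 : ‖Y ^ 2‖ < 1 := by
        rw [he]
        exact lmul' (lmul' hX (nadd hX.le hm.le)) (nsub hX.le (nmul i16 hm.le))
      rw [norm_pow] at h1
      by_contra h
      rw [not_lt] at h
      have := one_le_pow₀ h (n := 2)
      linarith
    · have hm2 : ‖(N : ℚ_[q]) ^ 2‖ < 1 := by
        rw [pow_two]
        exact lmul hm.le hm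
      have hX2 : ‖X ^ 2‖ < 1 := by
        rw [pow_two]
        exact lmul hX.le hX
      exact lsub (lsub (lmul i3 hX2) (lmul (nmul i30 hm.le) hX)) (lmul i16 hm2)

/-- translation by a point of order two -/
theorem trans {r t c Y : ℚ_[q]} {P T : PtP W q} (hc : 3 * r ^ 2 - 30 * r - 16 = c) (hr1 : ‖r‖ ≤ 1)
    (hP : At P (N * t) Y) (hT : At T (N * r) 0) (htr : ‖t - r‖ ≤ (q : ℝ)⁻¹ * ‖c‖)
    (hroot : r * (r + 1) * (r - 16) = 0) : P + T ∈ E0 W q := by
  have hV := isK (q := q) h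
  have hm0 := M_ne hM
  have hml := M_lt hM
  have hmp := M_pos hM
  have h2 : (2 : ℚ_[q]) ≠ 0 := two_ne_zero
  by_cases he : t = r
  · have hY : Y = 0 := by
      have h3 := hP.eqn hV
      rw [he] at h3
      have h4 : Y ^ 2 = 0 := by
        rw [h3]
        linear_combination (N : ℚ_[q]) ^ 3 * hroot
      exact pow_eq_zero_iff two_ne_zero |>.1 h4
    rw [hY, he] at hP
    rw [hP.ext h2 hT, two_tors hV h2 hT]
    exact AddSubgroup.zero_mem _
  · obtain ⟨X3, Y3, h3, h4⟩ := hP.addT hV h2 hT (fun hh => he (mul_left_cancel₀ hm0 hh))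
    have htr0 : t - r ≠ 0 := sub_ne_zero.2 he
    have e5 : (X3 - N * r) * (t - r) = N * c := by
      apply mul_left_cancel₀ hm0
      linear_combination h4 + (N : ℚ_[q]) ^ 2 * hc
    have e6 : ‖X3 - N * r‖ * ‖t - r‖ = (q : ℝ)⁻¹ * ‖c‖ := by
      rw [← norm_mul, e5, norm_mul, hM]
    by_contra hcon
    have h5 := (memX h hq2 hM h3).1 hcon
    have h6 : ‖X3 - N * r‖ < 1 := lsub h5 (lmul' hml hr1)
    have h8 : 0 < ‖t - r‖ := norm_pos_iff.2 htr0
    have h9 : ‖X3 - N * r‖ * ‖t - r‖ < 1 * ‖t - r‖ := mul_lt_mul_of_pos_right h6 h8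
    rw [e6, one_mul] at h9
    exact absurd htr (not_le.2 h9)

theorem tam_four : tam W q = 4 := by
  have hV := isK (q := q) h
  have hm := M_lt hM
  have hm0 := M_ne hM
  have hmp := M_pos hM
  have h2 : (2 : ℚ_[q]) ≠ 0 := two_ne_zero
  have hq1 : (1 : ℝ) < q := by exact_mod_cast (Fact.out : q.Prime).one_lt
  have hq0 : (0 : ℝ) < (q : ℝ)⁻¹ := by positivity
  obtain ⟨T0, hT0⟩ := exists_two hV h2 (e := N * 0) (by ring) (by
    have : 3 * ((N : ℚ_[q]) * 0) ^ 2 - 30 * N * (N * 0) - 16 * (N : ℚ_[q]) ^ 2 = -16 * (N : ℚ_[q]) ^ 2 := by ring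
    rw [this]
    exact mul_ne_zero (by norm_num) (pow_ne_zero _ hm0))
  obtain ⟨T1, hT1⟩ := exists_two hV h2 (e := N * (-1)) (by ring) (by
    have : 3 * ((N : ℚ_[q]) * (-1)) ^ 2 - 30 * N * (N * (-1)) - 16 * (N : ℚ_[q]) ^ 2 = 17 * (N : ℚ_[q]) ^ 2 := by
      ring
    rw [this]
    exact mul_ne_zero (by norm_num) (pow_ne_zero _ hm0))
  obtain ⟨T2, hT2⟩ := exists_two hV h2 (e := N * 16) (by ring) (by
    have : 3 * ((N : ℚ_[q]) * 16) ^ 2 - 30 * N * (N * 16) - 16 * (N : ℚ_[q]) ^ 2 = 272 * (N : ℚ_[q]) ^ 2 := by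
      ring
    rw [this]
    exact mul_ne_zero (by norm_num) (pow_ne_zero _ hm0))
  have a0 := two_tors hV h2 hT0
  have a1 := two_tors hV h2 hT1
  have a2 := two_tors hV h2 hT2
  have u16 : ‖(16 : ℚ_[q])‖ = 1 := norm16 hq2
  have i1 : ‖(-1 : ℚ_[q])‖ ≤ 1 := by rw [norm_neg, norm_one]
  have i0 : ‖(0 : ℚ_[q])‖ ≤ 1 := by rw [norm_zero]; norm_num
  have b0 : T0 ∉ E0 W q := (memX h hq2 hM hT0).2 (lmul' hm i0)
  have b1 : T1 ∉ E0 W q := (memX h hq2 hM hT1).2 (lmul' hm i1)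
  have b2 : T2 ∉ E0 W q := (memX h hq2 hM hT2).2 (lmul' hm u16.le)
  -- the sums
  have key : ∀ (e e' e'' : ℚ_[q]) (T T' T'' : PtP W q), At T (N * e) 0 →
      At T' (N * e') 0 → T'' ∉ E0 W q → At T'' (N * e'') 0 → e ≠ e' →
      (e'' - e') * (e - e') = 3 * e' ^ 2 - 30 * e' - 16 → T + T' ∉ E0 W q := by
    intro e e' e'' T T' T'' k k' hn k'' hne hr
    obtain ⟨X3, Y3, h3, h4⟩ := k.addT hV h2 k' (fun hh => hne (mul_left_cancel₀ hm0 hh))
    have h5 : X3 = N * e'' := by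
      have h6 : (X3 - N * e'') * (N * (e - e')) = 0 := by
        linear_combination h4 - (N : ℚ_[q]) ^ 2 * hr
      have h7 : (N : ℚ_[q]) * (e - e') ≠ 0 := mul_ne_zero hm0 (sub_ne_zero.2 hne)
      exact sub_eq_zero.1 ((mul_eq_zero.1 h6).resolve_right h7)
    rw [memX h hq2 hM h3, h5]
    exact (memX h hq2 hM k'').1 hn
  have m01 : T0 + T1 ∉ E0 W q := key 0 (-1) 16 T0 T1 T2 hT0 hT1 b2 hT2 (by norm_num) (by norm_num)
  have m02 : T0 + T2 ∉ E0 W q := key 0 16 (-1) T0 T2 T1 hT0 hT2 b1 hT1 (by norm_num) (by norm_num)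
  have m12 : T1 + T2 ∉ E0 W q := key (-1) 16 0 T1 T2 T0 hT1 hT2 b0 hT0 (by norm_num) (by norm_num)
  have m10 : T1 + T0 ∉ E0 W q := by rwa [add_comm]
  have m20 : T2 + T0 ∉ E0 W q := by rwa [add_comm]
  have m21 : T2 + T1 ∉ E0 W q := by rwa [add_comm]
  have n16 : ‖(-16 : ℚ_[q])‖ = 1 := by rw [norm_neg, u16]
  have n272 : ‖(272 : ℚ_[q])‖ = ‖(17 : ℚ_[q])‖ := by
    have : (272 : ℚ_[q]) = 16 * 17 := by norm_num
    rw [this, norm_mul, u16, one_mul]
  rw [Pool.Agent.Y700.tam]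
  apply index_of (E0 W q) ![0, T0, T1, T2]
  · intro i
    fin_cases i
    · exact add_zero _
    · exact a0
    · exact a1
    · exact a2
  · intro P
    by_cases hP : P ∈ E0 W q
    · exact ⟨0, by simpa using hP⟩
    have hP0 : P ≠ 0 := fun h0 => hP (by rw [h0]; exact zero_mem _)
    obtain ⟨X, Y, hat⟩ := exists_at hP0
    have hX := (memX h hq2 hM hat).1 hP
    obtain ⟨t, rfl⟩ : ∃ t : ℚ_[q], X = N * t := ⟨X / N, by rw [mul_div_cancel₀ _ hm0]⟩
    have ht1 : ‖t‖ ≤ 1 := by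
      have h1 := norm_le_inv q hX
      rw [norm_mul, ← hM] at h1
      by_contra h
      rw [not_le] at h
      nlinarith
    have he : ‖Y‖ ^ 2 = (q : ℝ)⁻¹ ^ 3 * ‖t * (t + 1) * (t - 16)‖ := by
      have h3 := hat.eqn hV
      have h4 : (N : ℚ_[q]) * t * (N * t + N) * (N * t - 16 * N) = N ^ 3 * (t * (t + 1) * (t - 16)) := by ring
      rw [h4] at h3
      rw [← norm_pow, h3, norm_mul, norm_pow, hM]
    have ht2 : ‖t * (t + 1) * (t - 16)‖ < 1 := by
      have h3 : ‖t * (t + 1) * (t - 16)‖ ≤ 1 :=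
        nmul (nmul ht1 (nadd ht1 norm_one.le)) (nsub ht1 u16.le)
      refine lt_of_le_of_ne h3 fun h4 => ?_
      rw [h4, mul_one] at he
      exact parity' Y 1 he
    suffices hs : ‖t‖ < 1 ∨ ‖t - (-1)‖ ≤ (q : ℝ)⁻¹ * ‖(17 : ℚ_[q])‖ ∨
        ‖t - 16‖ ≤ (q : ℝ)⁻¹ * ‖(17 : ℚ_[q])‖ by
      rcases hs with h3 | h3 | h3
      · refine ⟨1, trans h hq2 hM (c := -16) (by norm_num) i0 hat hT0 ?_ (by norm_num)⟩
        rw [sub_zero, n16, mul_one]
        exact norm_le_inv q h3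
      · exact ⟨2, trans h hq2 hM (c := 17) (by norm_num) i1 hat hT1 h3 (by norm_num)⟩
      · exact ⟨3, trans h hq2 hM (c := 272) (by norm_num) u16.le hat hT2 (by rw [n272]; exact h3) (by norm_num)⟩
    by_cases ht0 : ‖t‖ < 1
    · exact Or.inl ht0
    right
    have ht0' : ‖t‖ = 1 := le_antisymm ht1 (not_lt.1 ht0)
    rw [mul_assoc, norm_mul, ht0', one_mul, norm_mul] at ht2
    rw [mul_assoc, norm_mul, ht0', one_mul, norm_mul] at he
    have e17 : t - (-1) = t + 1 := by ring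
    rw [e17]
    have l1 : ‖t + 1‖ ≤ 1 := nadd ht1 norm_one.le
    have l2 : ‖t - 16‖ ≤ 1 := nsub ht1 u16.le
    by_cases hq17 : q = 17
    · subst hq17
      have n17 : ‖(17 : ℚ_[17])‖ = (17 : ℝ)⁻¹ := by
        have := Padic.norm_p (p := 17)
        exact_mod_cast this
      push_cast at he hM hq0 hq1 ⊢
      rw [n17]
      have d1 : ‖t + 1‖ < 1 := by
        by_contra hc
        have hc' : ‖t + 1‖ = 1 := le_antisymm l1 (not_lt.1 hc)
        rw [hc', one_mul] at ht2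
        have e : t + 1 = (t - 16) + 17 := by ring
        have : ‖t + 1‖ < 1 := by
          rw [e]
          exact ladd ht2 (by rw [n17]; norm_num)
        exact hc this
      have d1' : ‖t + 1‖ ≤ (17 : ℝ)⁻¹ := by
        have := norm_le_inv 17 d1
        exact_mod_cast this
      by_cases d2 : ‖t + 1‖ < (17 : ℝ)⁻¹
      · left
        have h3 := (Padic.norm_le_pow_iff_norm_lt_pow_add_one (t + 1) (-2)).2 (by
          have : (((17 : ℕ) : ℝ)) ^ ((-2 : ℤ) + 1) = (17 : ℝ)⁻¹ := by norm_num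
          rw [this]
          exact d2)
        have : (((17 : ℕ) : ℝ)) ^ (-2 : ℤ) = (17 : ℝ)⁻¹ * (17 : ℝ)⁻¹ := by norm_num
        rw [this] at h3
        exact h3
      · right
        have d3 : ‖t + 1‖ = (17 : ℝ)⁻¹ := le_antisymm d1' (not_lt.1 d2)
        have e : t - 16 = (t + 1) + (-17) := by ring
        have d4 : ‖t - 16‖ ≤ (17 : ℝ)⁻¹ := by
          rw [e]
          refine (IsUltrametricDist.norm_add_le_max _ _).trans ?_
          rw [d3, norm_neg, n17, max_self]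
        have d5 : ‖t - 16‖ ≠ (17 : ℝ)⁻¹ := by
          intro d5
          rw [d3, d5] at he
          apply parity' Y 2
          rw [he]
          norm_num
        have d6 : ‖t - 16‖ < (17 : ℝ)⁻¹ := lt_of_le_of_ne d4 d5
        have h3 := (Padic.norm_le_pow_iff_norm_lt_pow_add_one (t - 16) (-2)).2 (by
          have : (((17 : ℕ) : ℝ)) ^ ((-2 : ℤ) + 1) = (17 : ℝ)⁻¹ := by norm_num
          rw [this]
          exact d6)
        have : (((17 : ℕ) : ℝ)) ^ (-2 : ℤ) = (17 : ℝ)⁻¹ * (17 : ℝ)⁻¹ := by norm_num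
        rw [this] at h3
        exact h3
    · have n17 : ‖(17 : ℚ_[q])‖ = 1 := by
        have : ‖((17 : ℕ) : ℚ_[q])‖ = 1 :=
          norm_nat_eq_one q ((Nat.coprime_primes Fact.out (by norm_num)).2 hq17)
        exact_mod_cast this
      rw [n17, mul_one]
      by_cases d1 : ‖t + 1‖ < 1
      · exact Or.inl (norm_le_inv q d1)
      · right
        apply norm_le_inv q
        by_contra d2
        have d1' := not_lt.1 d1
        have d2' := not_lt.1 d2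
        have := one_le_mul_of_one_le_of_one_le d1' d2'
        linarith
  · intro i j hij
    fin_cases i <;> fin_cases j <;> first | rfl | (exfalso; simp at hij; first | exact b0 hij | exact b1 hij | exact b2 hij | exact m01 hij | exact m02 hij | exact m12 hij | exact m10 hij | exact m20 hij | exact m21 hij)

end

theorem t_TAMP : S_TAMP := by
  intro W N p _ h hp2 h1 h2
  exact tam_four h hp2 (norm_M p h1 h2)

end Pool.Agent.H216.X17
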